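import Pool.Agent.Helper65.KH.Goals

/-!
# Project KH (MP_20ee5e_ag), packet VS: volumes and scaling
-/

set_option autoImplicit false

open MeasureTheory
open scoped Pointwise

namespace Pool.Agent.Helper71.KH.VS

open Pool.Agent.Helper65.KH

theorem dt_smul_left {ι : Type} [Fintype ι] (c : ℝ) (w x : ι → ℝ) :
    dt (c • w) x = c * dt w x := by
  unfold dt
  rw [Finset.mul_sum]
  refine Finset.sum_congr rfl fun i _ => ?_
  simp only [Pi.smul_apply, smul_eq_mul]
  ring

theorem dt_smul_right {ι : Type} [Fintype ι] (c : ℝ) (w x : ι → ℝ) :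
    dt w (c • x) = c * dt w x := by
  unfold dt
  rw [Finset.mul_sum]
  refine Finset.sum_congr rfl fun i _ => ?_
  simp only [Pi.smul_apply, smul_eq_mul]
  ring

theorem cv_smul {ι : Type} (m : ℕ) (v : ι → ℕ) : cv (m • v) = (m : ℝ) • cv v := by
  funext i
  simp [cv]

theorem kk_bdd {ι : Type} [Fintype ι] [DecidableEq ι] (V : Finset (ι → ℕ)) (hV : Cn V) :
    volume (KK V) ≠ ⊤ := by
  choose m hm hmV using hV.2
  have hsub : KK V ⊆ Set.Icc (0 : ι → ℝ) (fun i => (m i : ℝ)) := by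
    rintro x ⟨hx0, w, hw, hwx⟩
    refine ⟨hx0, ?_⟩
    have hw1 : ∀ i, 1 ≤ w i * (m i : ℝ) := by
      intro i
      have h := hw _ (hmV i)
      have h2 : dt w (cv (Pi.single i (m i))) = w i * (m i : ℝ) := by
        unfold dt cv
        rw [Finset.sum_eq_single i]
        · simp
        · intro j _ hj
          simp [hj]
        · intro h; exact absurd (Finset.mem_univ _) h
      rw [h2] at h
      exact h
    have hwpos : ∀ i, 0 < w i := by
      intro i
      by_contra hneg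
      have h1 := hw1 i
      have h2 : w i * (m i : ℝ) ≤ 0 :=
        mul_nonpos_of_nonpos_of_nonneg (not_lt.mp hneg) (Nat.cast_nonneg _)
      linarith
    intro i
    by_contra hlt
    have hlt' : (m i : ℝ) < x i := not_le.mp hlt
    have h3 : w i * x i ≤ dt w x := by
      unfold dt
      exact Finset.single_le_sum (f := fun i => w i * x i)
        (fun j _ => mul_nonneg (hwpos j).le (hx0 j)) (Finset.mem_univ i)
    have h4 : w i * (m i : ℝ) < w i * x i := mul_lt_mul_of_pos_left hlt' (hwpos i)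
    have h5 := hw1 i
    linarith
  exact ne_top_of_le_ne_top (isCompact_Icc.measure_lt_top).ne (measure_mono hsub)

theorem vol_smul {ι : Type} [Fintype ι] (r : ℝ) (hr : 0 ≤ r) (s : Set (ι → ℝ)) :
    (volume (r • s)).toReal = r ^ Fintype.card ι * (volume s).toReal := by
  rw [Measure.addHaar_smul, Module.finrank_fintype_fun_eq_card, ENNReal.toReal_mul,
    ENNReal.toReal_ofReal (abs_nonneg _), abs_of_nonneg (pow_nonneg hr _)]

theorem vol_smul_ne_top {ι : Type} [Fintype ι] (r : ℝ) (s : Set (ι → ℝ)) (hs : volume s ≠ ⊤) :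
    volume (r • s) ≠ ⊤ := by
  rw [Measure.addHaar_smul]
  exact ENNReal.mul_ne_top ENNReal.ofReal_ne_top hs

theorem t : S_VS := by
  intro ι _ _ V V' q C hV hq hS
  have hq' : (0 : ℝ) < q := by exact_mod_cast hq
  have h1 : volume (KK V) ≠ ⊤ := kk_bdd V hV
  have hsub1 : (q : ℝ) • KK V ⊆ KK V' := by
    rintro _ ⟨x, ⟨hx0, w, hw, hwx⟩, rfl⟩
    refine ⟨smul_nonneg hq'.le hx0, (q : ℝ)⁻¹ • w, ?_, ?_⟩
    · intro v' hv'
      obtain ⟨v, hv, m, hm1, hm2, rfl⟩ := hS.2 v' hv'
      have hmq : (q : ℝ) ≤ m := by exact_mod_cast hm1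
      have h := hw v hv
      rw [cv_smul, dt_smul_left, dt_smul_right]
      have h2 : (1 : ℝ) ≤ (q : ℝ)⁻¹ * m := by
        rw [inv_mul_eq_div, le_div_iff₀ hq', one_mul]
        exact hmq
      calc (1 : ℝ) ≤ ((q : ℝ)⁻¹ * m) * 1 := by rw [mul_one]; exact h2
        _ ≤ ((q : ℝ)⁻¹ * m) * dt w (cv v) :=
            mul_le_mul_of_nonneg_left h (le_trans zero_le_one h2)
        _ = (q : ℝ)⁻¹ * (m * dt w (cv v)) := by ring
    · rw [dt_smul_left]
      have : dt w ((q : ℝ) • x) = q * dt w x := dt_smul_right _ _ _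
      change (q : ℝ)⁻¹ * dt w ((q : ℝ) • x) < 1
      rw [this, ← mul_assoc, inv_mul_cancel₀ hq'.ne', one_mul]
      exact hwx
  have hqC : (0 : ℝ) < (q : ℝ) + C := by positivity
  have hsub2 : KK V' ⊆ ((q : ℝ) + C) • KK V := by
    rintro x ⟨hx0, w, hw, hwx⟩
    refine ⟨((q : ℝ) + C)⁻¹ • x, ⟨smul_nonneg (inv_nonneg.mpr hqC.le) hx0,
      ((q : ℝ) + C) • w, ?_, ?_⟩, ?_⟩
    · intro v hv
      obtain ⟨m, hm1, hm2, hmV⟩ := hS.1 v hv
      have h := hw _ hmV
      rw [cv_smul, dt_smul_right] at h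
      have hm0 : (0 : ℝ) < m := by
        have : 0 < m := lt_of_lt_of_le hq hm1
        exact_mod_cast this
      have hpos : 0 < dt w (cv v) := by
        by_contra hneg
        have := mul_nonpos_of_nonneg_of_nonpos hm0.le (not_lt.mp hneg)
        linarith
      have hmC : (m : ℝ) ≤ (q : ℝ) + C := by exact_mod_cast hm2
      rw [dt_smul_left]
      exact h.trans (mul_le_mul_of_nonneg_right hmC hpos.le)
    · rw [dt_smul_left, dt_smul_right, ← mul_assoc, mul_inv_cancel₀ hqC.ne', one_mul]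
      exact hwx
    · change ((q : ℝ) + C) • (((q : ℝ) + C)⁻¹ • x) = x
      rw [smul_smul, mul_inv_cancel₀ hqC.ne', one_smul]
  have h2 : volume (KK V') ≠ ⊤ :=
    ne_top_of_le_ne_top (vol_smul_ne_top _ _ h1) (measure_mono hsub2)
  refine ⟨h1, h2, ?_, ?_⟩
  · rw [← vol_smul (q : ℝ) hq'.le]
    exact ENNReal.toReal_mono h2 (measure_mono hsub1)
  · rw [← vol_smul ((q : ℝ) + C) hqC.le]
    exact ENNReal.toReal_mono (vol_smul_ne_top _ _ h1) (measure_mono hsub2)

end Pool.Agent.Helper71.KH.VS
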